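import Mathlib

/-!
# Transversals of pairs of finite sets in abelian groups: basic operations
-/

set_option autoImplicit false
set_option linter.unusedSectionVars false

namespace Pool.Agent.Helper7.SN

open Finset

section General

variable {G : Type*} [AddCommGroup G] [DecidableEq G]

/-- `(A, B)` has a transversal. -/
def Tr {G : Type*} [AddCommGroup G] (A B : Finset G) : Prop :=
  ∃ f : G → G, Set.BijOn f (A : Set G) (B : Set G) ∧
    Set.InjOn (fun a => a + f a) (A : Set G)

/-- `(A, B)` has a transversal with all sums in `S`. -/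
def TrS {G : Type*} [AddCommGroup G] (A B : Finset G) (S : Set G) : Prop :=
  ∃ f : G → G, Set.BijOn f (A : Set G) (B : Set G) ∧
    Set.InjOn (fun a => a + f a) (A : Set G) ∧ ∀ a ∈ A, a + f a ∈ S

/-- `A` and `B` are cosets of one subgroup of even order. -/
def CosPair {G : Type*} [AddCommGroup G] (A B : Finset G) : Prop :=
  ∃ H : AddSubgroup G, Even (Nat.card H) ∧ ∃ a b : G,
    (∀ x : G, x ∈ A ↔ x - a ∈ H) ∧ (∀ x : G, x ∈ B ↔ x - b ∈ H)

lemma TrS.tr {A B : Finset G} {S : Set G} (h : TrS A B S) : Tr A B := by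
  obtain ⟨f, h1, h2, _⟩ := h
  exact ⟨f, h1, h2⟩

lemma Tr.trS {A B : Finset G} {S : Set G} (h : Tr A B)
    (hS : ∀ a ∈ A, ∀ b ∈ B, a + b ∈ S) : TrS A B S := by
  obtain ⟨f, h1, h2⟩ := h
  exact ⟨f, h1, h2, fun a ha => hS a ha _ (h1.mapsTo ha)⟩

lemma TrS.mono {A B : Finset G} {S T : Set G} (h : TrS A B S) (hST : S ⊆ T) : TrS A B T := by
  obtain ⟨f, h1, h2, h3⟩ := h
  exact ⟨f, h1, h2, fun a ha => hST (h3 a ha)⟩

lemma trS_empty (S : Set G) : TrS (∅ : Finset G) ∅ S := by
  refine ⟨id, ?_, ?_, ?_⟩
  · simp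
  · simp
  · simp

lemma tr_empty : Tr (∅ : Finset G) ∅ := (trS_empty (G := G) Set.univ).tr

lemma TrS.symm {A B : Finset G} {S : Set G} (h : TrS A B S) : TrS B A S := by
  obtain ⟨f, h1, h2, h3⟩ := h
  rcases A.eq_empty_or_nonempty with rfl | hne
  · have hB : B = ∅ := by
      apply Finset.eq_empty_of_forall_notMem
      intro b hb
      obtain ⟨a, ha, _⟩ := h1.surjOn hb
      simp at ha
    rw [hB]
    exact trS_empty S
  have hinv : Set.InvOn (Function.invFunOn f (A : Set G)) f (A : Set G) (B : Set G) :=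
    h1.invOn_invFunOn
  refine ⟨Function.invFunOn f (A : Set G), ?_, ?_, ?_⟩
  · exact Set.BijOn.symm hinv.symm h1
  · intro b hb b' hb' hbb
    simp only at hbb
    obtain ⟨a, ha, rfl⟩ := h1.surjOn hb
    obtain ⟨a', ha', rfl⟩ := h1.surjOn hb'
    rw [hinv.1 ha, hinv.1 ha'] at hbb
    have : a = a' := h2 ha ha' (by simp only; rw [add_comm a, add_comm a']; exact hbb)
    rw [this]
  · intro b hb
    obtain ⟨a, ha, rfl⟩ := h1.surjOn (show b ∈ (B : Set G) from hb)
    rw [hinv.1 ha, add_comm]
    exact h3 a ha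

lemma Tr.symm {A B : Finset G} (h : Tr A B) : Tr B A := by
  have h' : TrS A B Set.univ := h.trS (fun _ _ _ _ => Set.mem_univ _)
  exact h'.symm.tr

lemma TrS.union {A₁ A₂ B₁ B₂ : Finset G} {S₁ S₂ : Set G} (h₁ : TrS A₁ B₁ S₁)
    (h₂ : TrS A₂ B₂ S₂) (hA : Disjoint A₁ A₂) (hB : Disjoint B₁ B₂) (hS : Disjoint S₁ S₂) :
    TrS (A₁ ∪ A₂) (B₁ ∪ B₂) (S₁ ∪ S₂) := by
  classical
  obtain ⟨f, f1, f2, f3⟩ := h₁
  obtain ⟨g, g1, g2, g3⟩ := h₂
  set F : G → G := fun x => if x ∈ A₁ then f x else g x with hF
  have F1 : ∀ x ∈ A₁, F x = f x := fun x hx => by simp [hF, hx]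
  have F2 : ∀ x ∈ A₂, F x = g x := fun x hx => by
    have : x ∉ A₁ := fun h => (Finset.disjoint_left.1 hA) h hx
    simp [hF, this]
  refine ⟨F, ⟨?_, ?_, ?_⟩, ?_, ?_⟩
  · intro x hx
    rw [Finset.mem_coe, Finset.mem_union] at hx
    rcases hx with hx | hx
    · rw [F1 x hx]
      exact Finset.mem_coe.2 (Finset.mem_union_left _ (f1.mapsTo hx))
    · rw [F2 x hx]
      exact Finset.mem_coe.2 (Finset.mem_union_right _ (g1.mapsTo hx))
  · intro x hx y hy hxy
    rw [Finset.mem_coe, Finset.mem_union] at hx hy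
    rcases hx with hx | hx <;> rcases hy with hy | hy
    · rw [F1 x hx, F1 y hy] at hxy
      exact f1.injOn hx hy hxy
    · rw [F1 x hx, F2 y hy] at hxy
      have e1 : f x ∈ B₁ := f1.mapsTo hx
      have e2 : g y ∈ B₂ := g1.mapsTo hy
      rw [hxy] at e1
      exact absurd e2 (Finset.disjoint_left.1 hB e1)
    · rw [F2 x hx, F1 y hy] at hxy
      have e1 : f y ∈ B₁ := f1.mapsTo hy
      have e2 : g x ∈ B₂ := g1.mapsTo hx
      rw [← hxy] at e1
      exact absurd e2 (Finset.disjoint_left.1 hB e1)
    · rw [F2 x hx, F2 y hy] at hxy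
      exact g1.injOn hx hy hxy
  · intro b hb
    rw [Finset.mem_coe, Finset.mem_union] at hb
    rcases hb with hb | hb
    · obtain ⟨a, ha, rfl⟩ := f1.surjOn hb
      exact ⟨a, Finset.mem_coe.2 (Finset.mem_union_left _ ha), F1 a ha⟩
    · obtain ⟨a, ha, rfl⟩ := g1.surjOn hb
      exact ⟨a, Finset.mem_coe.2 (Finset.mem_union_right _ ha), F2 a ha⟩
  · intro x hx y hy hxy
    rw [Finset.mem_coe, Finset.mem_union] at hx hy
    simp only at hxy
    rcases hx with hx | hx <;> rcases hy with hy | hy
    · rw [F1 x hx, F1 y hy] at hxy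
      exact f2 hx hy hxy
    · rw [F1 x hx, F2 y hy] at hxy
      have e1 := f3 x hx
      have e2 := g3 y hy
      rw [hxy] at e1
      exact absurd e2 (Set.disjoint_left.1 hS e1)
    · rw [F2 x hx, F1 y hy] at hxy
      have e1 := f3 y hy
      have e2 := g3 x hx
      rw [← hxy] at e1
      exact absurd e2 (Set.disjoint_left.1 hS e1)
    · rw [F2 x hx, F2 y hy] at hxy
      exact g2 hx hy hxy
  · intro x hx
    rw [Finset.mem_union] at hx
    rcases hx with hx | hx
    · rw [F1 x hx]
      exact Or.inl (f3 x hx)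
    · rw [F2 x hx]
      exact Or.inr (g3 x hx)

/-- translate of a finite set -/
def sh (A : Finset G) (s : G) : Finset G := A.map (Equiv.addRight s).toEmbedding

lemma mem_sh {A : Finset G} {s x : G} : x ∈ sh A s ↔ x - s ∈ A := by
  unfold sh
  simp only [Finset.mem_map_equiv]
  rw [show (Equiv.addRight s).symm x = x - s by simp [sub_eq_add_neg]]

lemma card_sh (A : Finset G) (s : G) : (sh A s).card = A.card := by
  unfold sh
  exact Finset.card_map _

lemma sh_sh (A : Finset G) (s t : G) : sh (sh A s) t = sh A (s + t) := by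
  ext x
  rw [mem_sh, mem_sh, mem_sh]
  rw [show x - t - s = x - (s + t) by abel]

lemma sh_zero (A : Finset G) : sh A 0 = A := by
  ext x
  rw [mem_sh, sub_zero]

lemma Tr.sh {A B : Finset G} (h : Tr A B) (s t : G) : Tr (sh A s) (sh B t) := by
  obtain ⟨f, h1, h2⟩ := h
  refine ⟨fun x => f (x - s) + t, ⟨?_, ?_, ?_⟩, ?_⟩
  · intro x hx
    rw [Finset.mem_coe, mem_sh] at hx
    rw [Finset.mem_coe, mem_sh]
    simp only [add_sub_cancel_right]
    exact h1.mapsTo hx
  · intro x hx y hy hxy
    rw [Finset.mem_coe, mem_sh] at hx hy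
    simp only at hxy
    have := h1.injOn hx hy (add_right_cancel hxy)
    exact sub_left_injective this
  · intro b hb
    rw [Finset.mem_coe, mem_sh] at hb
    obtain ⟨a, ha, hab⟩ := h1.surjOn hb
    refine ⟨a + s, ?_, ?_⟩
    · rw [Finset.mem_coe, mem_sh, add_sub_cancel_right]
      exact ha
    · simp only [add_sub_cancel_right]
      rw [hab, sub_add_cancel]
  · intro x hx y hy hxy
    rw [Finset.mem_coe, mem_sh] at hx hy
    simp only at hxy
    have := h2 hx hy (by
      simp only
      have e : x - s + f (x - s) = (x + (f (x - s) + t)) - s - t := by abel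
      have e' : y - s + f (y - s) = (y + (f (y - s) + t)) - s - t := by abel
      rw [e, e', hxy])
    exact sub_left_injective this

lemma tr_sh_iff {A B : Finset G} (s t : G) : Tr (sh A s) (sh B t) ↔ Tr A B := by
  constructor
  · intro h
    have := h.sh (-s) (-t)
    rw [sh_sh, sh_sh, add_neg_cancel, add_neg_cancel, sh_zero, sh_zero] at this
    exact this
  · intro h
    exact h.sh s t

lemma CosPair.sh {A B : Finset G} (h : CosPair A B) (s t : G) : CosPair (sh A s) (sh B t) := by
  obtain ⟨H, hH, a, b, ha, hb⟩ := h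
  refine ⟨H, hH, a + s, b + t, ?_, ?_⟩
  · intro x
    rw [mem_sh, ha, show x - s - a = x - (a + s) by abel]
  · intro x
    rw [mem_sh, hb, show x - t - b = x - (b + t) by abel]

lemma cosPair_sh_iff {A B : Finset G} (s t : G) : CosPair (sh A s) (sh B t) ↔ CosPair A B := by
  constructor
  · intro h
    have := h.sh (-s) (-t)
    rw [sh_sh, sh_sh, add_neg_cancel, add_neg_cancel, sh_zero, sh_zero] at this
    exact this
  · intro h
    exact h.sh s t

lemma CosPair.symm {A B : Finset G} (h : CosPair A B) : CosPair B A := by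
  obtain ⟨H, hH, a, b, ha, hb⟩ := h
  exact ⟨H, hH, b, a, hb, ha⟩

/-- the conclusion of Snevily's conjecture for one pair -/
def Good {G : Type*} [AddCommGroup G] (A B : Finset G) : Prop := Tr A B ∨ CosPair A B

lemma Good.symm {A B : Finset G} (h : Good A B) : Good B A := by
  rcases h with h | h
  · exact Or.inl h.symm
  · exact Or.inr h.symm

lemma good_sh_iff {A B : Finset G} (s t : G) : Good (sh A s) (sh B t) ↔ Good A B := by
  unfold Good
  rw [tr_sh_iff, cosPair_sh_iff]

/-- Greedy partial transversal: rows `R`, pool of columns `D`, forbidden sums `F`. -/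
lemma greedy (R : Finset G) : ∀ (D F : Finset G), 2 * R.card + F.card ≤ D.card + 1 →
    ∃ Y C : Finset G, Y ⊆ D ∧ Y.card = R.card ∧ C.card = R.card ∧ Disjoint C F ∧
      (∀ c ∈ C, ∃ a ∈ R, ∃ y ∈ Y, c = a + y) ∧ TrS R Y (C : Set G) := by
  classical
  induction R using Finset.induction_on with
  | empty =>
    intro D F _
    refine ⟨∅, ∅, Finset.empty_subset _, rfl, rfl, Finset.disjoint_empty_left _, ?_, trS_empty _⟩
    simp
  | insert a R ha ih =>
    intro D F hcard
    rw [Finset.card_insert_of_notMem ha] at hcard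
    -- choose the column of `a`
    have hex : ∃ y ∈ D, a + y ∉ F := by
      by_contra hcon
      push Not at hcon
      have hsub : D.image (fun y => a + y) ⊆ F := by
        intro z hz
        obtain ⟨y, hy, rfl⟩ := Finset.mem_image.1 hz
        exact hcon y hy
      have h1 := Finset.card_le_card hsub
      rw [Finset.card_image_of_injective _ (add_right_injective a)] at h1
      omega
    obtain ⟨y, hy, hyF⟩ := hex
    obtain ⟨Y, C, hY, hYc, hCc, hCF, hC, hT⟩ := ih (D.erase y) (insert (a + y) F) (by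
      rw [Finset.card_insert_of_notMem hyF, Finset.card_erase_of_mem hy]
      have : 0 < D.card := Finset.card_pos.2 ⟨y, hy⟩
      omega)
    have hyY : y ∉ Y := fun h => (Finset.notMem_erase y D) (hY h)
    have haC : a + y ∉ C := fun h =>
      (Finset.disjoint_left.1 hCF h) (Finset.mem_insert_self _ _)
    have h1 : TrS ({a} : Finset G) ({y} : Finset G) ({a + y} : Set G) := by
      refine ⟨fun _ => y, ?_, ?_, ?_⟩
      · rw [Finset.coe_singleton, Finset.coe_singleton]
        exact Set.bijOn_singleton.2 rfl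
      · rw [Finset.coe_singleton]
        exact Set.injOn_singleton _ _
      · intro b hb
        rw [Finset.mem_singleton] at hb
        rw [hb]
        rfl
    have h2 := h1.union hT (Finset.disjoint_singleton_left.2 ha)
      (Finset.disjoint_singleton_left.2 hyY)
      (Set.disjoint_singleton_left.2 (fun h => haC (Finset.mem_coe.1 h)))
    refine ⟨insert y Y, insert (a + y) C, ?_, ?_, ?_, ?_, ?_, ?_⟩
    · intro z hz
      rcases Finset.mem_insert.1 hz with rfl | hz
      · exact hy
      · exact Finset.mem_of_mem_erase (hY hz)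
    · rw [Finset.card_insert_of_notMem hyY, Finset.card_insert_of_notMem ha, hYc]
    · rw [Finset.card_insert_of_notMem haC, Finset.card_insert_of_notMem ha, hCc]
    · rw [Finset.disjoint_left]
      intro z hz hzF
      rcases Finset.mem_insert.1 hz with rfl | hz
      · exact hyF hzF
      · exact (Finset.disjoint_left.1 hCF hz) (Finset.mem_insert_of_mem hzF)
    · intro c hc
      rcases Finset.mem_insert.1 hc with rfl | hc
      · exact ⟨a, Finset.mem_insert_self _ _, y, Finset.mem_insert_self _ _, rfl⟩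
      · obtain ⟨a', ha', y', hy', e⟩ := hC c hc
        exact ⟨a', Finset.mem_insert_of_mem ha', y', Finset.mem_insert_of_mem hy', e⟩
    · have e1 : ({a} : Finset G) ∪ R = insert a R := by
        rw [Finset.insert_eq]
      have e2 : ({y} : Finset G) ∪ Y = insert y Y := by
        rw [Finset.insert_eq]
      have e3 : ({a + y} : Set G) ∪ (C : Set G) = ((insert (a + y) C : Finset G) : Set G) := by
        rw [Finset.coe_insert, Set.insert_eq]
      rw [e1, e2, e3] at h2
      exact h2

/-- Greedy with a prescribed first column. -/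
lemma greedy_first (R : Finset G) (D F : Finset G) (h : 2 * R.card + F.card ≤ D.card + 1)
    (a y : G) (ha : a ∈ R) (hy : y ∈ D) (hF : a + y ∉ F) :
    ∃ Y C : Finset G, Y ⊆ D ∧ Y.card = R.card ∧ C.card = R.card ∧ Disjoint C F ∧ y ∈ Y ∧
      (∀ c ∈ C, ∃ a ∈ R, ∃ y ∈ Y, c = a + y) ∧ TrS R Y (C : Set G) := by
  classical
  have hR : 0 < R.card := Finset.card_pos.2 ⟨a, ha⟩
  have hD : 0 < D.card := Finset.card_pos.2 ⟨y, hy⟩
  obtain ⟨Y, C, hY, hYc, hCc, hCF, hC, hT⟩ := greedy (R.erase a) (D.erase y) (insert (a + y) F) (by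
      rw [Finset.card_insert_of_notMem hF, Finset.card_erase_of_mem hy,
        Finset.card_erase_of_mem ha]
      omega)
  rw [Finset.card_erase_of_mem ha] at hYc hCc
  have hyY : y ∉ Y := fun h => (Finset.notMem_erase y D) (hY h)
  have haR : a ∉ R.erase a := Finset.notMem_erase a R
  have haC : a + y ∉ C := fun h =>
    (Finset.disjoint_left.1 hCF h) (Finset.mem_insert_self _ _)
  have h1 : TrS ({a} : Finset G) ({y} : Finset G) ({a + y} : Set G) := by
    refine ⟨fun _ => y, ?_, ?_, ?_⟩
    · rw [Finset.coe_singleton, Finset.coe_singleton]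
      exact Set.bijOn_singleton.2 rfl
    · rw [Finset.coe_singleton]
      exact Set.injOn_singleton _ _
    · intro b hb
      rw [Finset.mem_singleton] at hb
      rw [hb]
      rfl
  have h2 := h1.union hT (Finset.disjoint_singleton_left.2 haR)
    (Finset.disjoint_singleton_left.2 hyY)
    (Set.disjoint_singleton_left.2 (fun h => haC (Finset.mem_coe.1 h)))
  refine ⟨insert y Y, insert (a + y) C, ?_, ?_, ?_, ?_, Finset.mem_insert_self _ _, ?_, ?_⟩
  · intro z hz
    rcases Finset.mem_insert.1 hz with rfl | hz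
    · exact hy
    · exact Finset.mem_of_mem_erase (hY hz)
  · rw [Finset.card_insert_of_notMem hyY, hYc]
    omega
  · rw [Finset.card_insert_of_notMem haC, hCc]
    omega
  · rw [Finset.disjoint_left]
    intro z hz hzF
    rcases Finset.mem_insert.1 hz with rfl | hz
    · exact hF hzF
    · exact (Finset.disjoint_left.1 hCF hz) (Finset.mem_insert_of_mem hzF)
  · intro c hc
    rcases Finset.mem_insert.1 hc with rfl | hc
    · exact ⟨a, ha, y, Finset.mem_insert_self _ _, rfl⟩
    · obtain ⟨a', ha', y', hy', e⟩ := hC c hc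
      exact ⟨a', Finset.mem_of_mem_erase ha', y', Finset.mem_insert_of_mem hy', e⟩
  · have e1 : ({a} : Finset G) ∪ R.erase a = R := by
      rw [← Finset.insert_eq, Finset.insert_erase ha]
    have e2 : ({y} : Finset G) ∪ Y = insert y Y := by
      rw [Finset.insert_eq]
    have e3 : ({a + y} : Set G) ∪ (C : Set G) = ((insert (a + y) C : Finset G) : Set G) := by
      rw [Finset.coe_insert, Set.insert_eq]
    rw [e1, e2, e3] at h2
    exact h2

end General

end Pool.Agent.Helper7.SN
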