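import Pool.Agent.Helper7.SN.Greedy
import Pool.Agent.Helper38.SnevP

/-!
# Assembly: Snevily's conjecture for even cyclic groups from its core case
-/

set_option autoImplicit false

namespace Pool.Agent.Helper7.SN

open Finset

/-- The core case at level `h`: both sets mixed modulo 2 and not unbalanced. The conjecture for
`Z/h` may be used. -/
def Core (h : ℕ) : Prop :=
  Snev h → ∀ A B : Finset (ZMod (2 * h)), A.card = B.card →
    0 < mnr h A → 0 < mnr h B → A.card + 2 ≤ 2 * (mnr h A + mnr h B) → Good A B

lemma good_of_frozen {n : ℕ} {A B : Finset (ZMod n)}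
    (h : (¬ ∃ f : ZMod n → ZMod n,
        Set.BijOn f (A : Set (ZMod n)) (B : Set (ZMod n)) ∧
        Set.InjOn (fun a => a + f a) (A : Set (ZMod n))) →
      ∃ H : AddSubgroup (ZMod n), Even (Nat.card H) ∧
        ∃ a b : ZMod n,
          (∀ x : ZMod n, x ∈ A ↔ x - a ∈ H) ∧
          (∀ x : ZMod n, x ∈ B ↔ x - b ∈ H)) : Good A B := by
  by_cases hT : Tr A B
  · exact Or.inl hT
  · exact Or.inr (h hT)

/-- One step of the induction. -/
theorem snev_step {h : ℕ} (hh : 0 < h) (hS : Snev h) (hcore : Core h) : Snev (2 * h) := by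
  intro A B hc
  by_cases hA : 0 < mnr h A
  · by_cases hB : 0 < mnr h B
    · rcases Nat.lt_or_ge (A.card + 1) (2 * (mnr h A + mnr h B)) with h1 | h1
      · exact hcore hS A B hc hA hB (by omega)
      · exact Or.inl (tr_unbalanced hh hS hc hA hB h1)
    · apply Good.symm
      apply good_oneClass hh hS hc.symm
      unfold mnr at hB
      rw [← Finset.card_eq_zero, ← Finset.card_eq_zero]
      omega
  · apply good_oneClass hh hS hc
    unfold mnr at hA
    rw [← Finset.card_eq_zero, ← Finset.card_eq_zero]
    omega

theorem snev_of_core (hcore : ∀ h : ℕ, 0 < h → Even h → Core h) :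
    ∀ n : ℕ, 0 < n → Even n → Snev n := by
  intro n
  induction n using Nat.strong_induction_on with
  | _ n ih =>
    intro hn he
    obtain ⟨m, hm⟩ := he
    have hm' : n = 2 * m := by omega
    subst hm'
    rcases Nat.even_or_odd m with hme | hmo
    · exact snev_step (by omega) (ih m (by omega) (by omega) hme) (hcore m (by omega) hme)
    · intro A B hc
      apply good_of_frozen
      intro hno
      exact Pool.Agent.Helper38.SnevG.snevily_twice_odd m hmo A B hc hno

/-- The frozen statement from the core case. -/
theorem main_of_core (hcore : ∀ h : ℕ, 0 < h → Even h → Core h) :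
    ∀ n : ℕ, 0 < n → Even n →
      ∀ A B : Finset (ZMod n), A.card = B.card →
        (¬ ∃ f : ZMod n → ZMod n,
            Set.BijOn f (A : Set (ZMod n)) (B : Set (ZMod n)) ∧
            Set.InjOn (fun a => a + f a) (A : Set (ZMod n))) →
        ∃ H : AddSubgroup (ZMod n), Even (Nat.card H) ∧
          ∃ a b : ZMod n,
            (∀ x : ZMod n, x ∈ A ↔ x - a ∈ H) ∧
            (∀ x : ZMod n, x ∈ B ↔ x - b ∈ H) := by
  intro n hn he A B hc hno
  rcases snev_of_core hcore n hn he A B hc with h | h
  · exact absurd h hno
  · exact h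

end Pool.Agent.Helper7.SN
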