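import Pool.Agent.Helper7.SN.OneClass

/-!
# Unbalanced pairs: greedy choice of the odd sums and induction for the even ones
-/

set_option autoImplicit false
set_option linter.unusedSectionVars false

namespace Pool.Agent.Helper7.SN

open Finset

/-- A set with fewer than `2 l` elements contains at most one bad set of size `l`. -/
lemma exists_hit {h : ℕ} (l : ℕ) (D : Finset (ZMod h)) (hD : D.Nonempty)
    (hl : 0 < l) (hcard : D.card < 2 * l) :
    ∃ y ∈ D, ∀ S : Finset (ZMod h), S ⊆ D → S.card = l → Bad l S → y ∈ S := by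
  classical
  by_cases hex : ∃ S : Finset (ZMod h), S ⊆ D ∧ S.card = l ∧ Bad l S
  · obtain ⟨S, hS, hSc, hSb⟩ := hex
    obtain ⟨y, hy⟩ : S.Nonempty := Finset.card_pos.1 (by omega)
    refine ⟨y, hS hy, ?_⟩
    intro S' hS' hSc' hSb'
    by_contra hyS'
    have hdis : Disjoint S S' := by
      rw [Finset.disjoint_left]
      intro z hz hz'
      exact hyS' ((hSb.eq_of_mem hSb' hz hz') ▸ hy)
    have h1 : (S ∪ S').card ≤ D.card := Finset.card_le_card (Finset.union_subset hS hS')
    rw [Finset.card_union_of_disjoint hdis, hSc, hSc'] at h1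
    omega
  · obtain ⟨y, hy⟩ := hD
    refine ⟨y, hy, ?_⟩
    intro S hS hSc hSb
    exact absurd ⟨S, hS, hSc, hSb⟩ hex

/-- The unbalanced case, asymmetric form. -/
lemma tr_unbal_aux {h : ℕ} (hh : 0 < h) (hS : Snev h) {A B : Finset (ZMod (2 * h))}
    (hc : A.card = B.card) (hp : 0 < (odP h A).card) (hq : 0 < (odP h B).card)
    (hpq : 2 * ((odP h A).card + (odP h B).card) ≤ A.card + 1)
    (hl : A.card - ((odP h A).card + (odP h B).card) ≤ 1 ∨
      (evP h B).card < 2 * (A.card - ((odP h A).card + (odP h B).card))) : Tr A B := by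
  classical
  set p := (odP h A).card with hpdef
  set q := (odP h B).card with hqdef
  have hA := card_ev_od h A
  have hB := card_ev_od h B
  rw [← hpdef] at hA
  rw [← hqdef] at hB
  set l := A.card - (p + q) with hldef
  have hBe : ∀ x ∈ evP h B, par h x = 0 := fun x hx => (mem_evP.1 hx).2
  have hAe : ∀ x ∈ evP h A, par h x = 0 := fun x hx => (mem_evP.1 hx).2
  have hBene : (evP h B).Nonempty := by
    rw [← Finset.card_pos]
    omega
  have hDne : (halfE h (evP h B)).Nonempty := by
    rw [← Finset.card_pos, card_halfE hBe, Finset.card_pos]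
    exact hBene
  -- the special column
  obtain ⟨y0, hy0, hy0S⟩ : ∃ y ∈ halfE h (evP h B), 2 ≤ l →
      ∀ S : Finset (ZMod h), S ⊆ halfE h (evP h B) → S.card = l → Bad l S → y ∈ S := by
    by_cases hl2 : 2 ≤ l
    · obtain ⟨y, hy, hyS⟩ := exists_hit l (halfE h (evP h B)) hDne (by omega) (by
        rw [card_halfE hBe]
        rcases hl with hl | hl
        · omega
        · exact hl)
      exact ⟨y, hy, fun _ => hyS⟩
    · obtain ⟨y, hy⟩ := hDne
      exact ⟨y, hy, fun hcon => absurd hcon hl2⟩
  obtain ⟨a0, ha0⟩ : (odP h A).Nonempty := Finset.card_pos.1 hp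
  -- first phase
  obtain ⟨Y, C1, hY, hYc, hC1c, _, hyY, hC1, T1⟩ := greedy_first (odP h A) (evP h B) ∅ (by
    rw [Finset.card_empty, ← hpdef]
    omega) a0 (dbl h y0) ha0 (mem_halfE.1 hy0) (Finset.notMem_empty _)
  -- second phase
  obtain ⟨X, C2, hX, hXc, hC2c, hC21, hC2, T2⟩ := greedy (odP h B) (evP h A) C1 (by
    rw [← hqdef, hC1c, ← hpdef]
    omega)
  have T2' := T2.symm
  -- third phase
  have hA3 : ∀ x ∈ evP h A \ X, par h x = 0 := fun x hx => hAe x (Finset.mem_sdiff.1 hx).1
  have hB3 : ∀ x ∈ evP h B \ Y, par h x = 0 := fun x hx => hBe x (Finset.mem_sdiff.1 hx).1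
  have cA3 : (evP h A \ X).card = l := by
    rw [Finset.card_sdiff_of_subset hX, hXc, ← hqdef]
    omega
  have cB3 : (evP h B \ Y).card = l := by
    rw [Finset.card_sdiff_of_subset hY, hYc, ← hpdef]
    omega
  have T3 : Tr (halfE h (evP h A \ X)) (halfE h (evP h B \ Y)) := by
    by_contra hno
    have hcc : (halfE h (evP h A \ X)).card = (halfE h (evP h B \ Y)).card := by
      rw [card_halfE hA3, card_halfE hB3, cA3, cB3]
    obtain ⟨e1, _, e3⟩ := Snev.bad hh hS hcc hno
    rw [card_halfE hA3, cA3] at e1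
    rw [card_halfE hB3, cB3] at e3
    rcases Nat.lt_or_ge l 2 with hl2 | hl2
    · -- `l = 0`: the empty pair has a transversal
      have hl0 : l = 0 := by
        obtain ⟨r, hr⟩ := e1
        omega
      apply hno
      have a1 : halfE h (evP h A \ X) = ∅ := by
        rw [← Finset.card_eq_zero, card_halfE hA3, cA3, hl0]
      have b1 : halfE h (evP h B \ Y) = ∅ := by
        rw [← Finset.card_eq_zero, card_halfE hB3, cB3, hl0]
      rw [a1, b1]
      exact tr_empty
    · have := hy0S hl2 (halfE h (evP h B \ Y)) (by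
        intro z hz
        rw [mem_halfE, Finset.mem_sdiff] at hz
        exact mem_halfE.2 hz.1) (by rw [card_halfE hB3, cB3]) e3
      rw [mem_halfE, Finset.mem_sdiff] at this
      exact this.2 hyY
  have U3 := T3.up
  rw [up_halfE hA3, up_halfE hB3] at U3
  -- parities of the sums
  have hC1o : ∀ c ∈ C1, par h c = 1 := by
    intro c hc
    obtain ⟨a, ha, y, hy, rfl⟩ := hC1 c hc
    rw [map_add, (mem_odP.1 ha).2, hBe y (hY hy), add_zero]
  have hC2o : ∀ c ∈ C2, par h c = 1 := by
    intro c hc
    obtain ⟨a, ha, y, hy, rfl⟩ := hC2 c hc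
    rw [map_add, (mem_odP.1 ha).2, hAe y (hX hy), add_zero]
  have V := T1.union T2' (by
      rw [Finset.disjoint_left]
      intro z hz hz'
      have e1 := (mem_odP.1 hz).2
      have e2 := hAe z (hX hz')
      rw [e1] at e2
      exact absurd e2 (by decide)) (by
      rw [Finset.disjoint_left]
      intro z hz hz'
      have e1 := (mem_odP.1 hz').2
      have e2 := hBe z (hY hz)
      rw [e1] at e2
      exact absurd e2 (by decide)) (by
      rw [Set.disjoint_left]
      intro z hz hz'
      exact (Finset.disjoint_left.1 hC21 (Finset.mem_coe.1 hz')) (Finset.mem_coe.1 hz))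
  have W := V.union U3 (by
      rw [Finset.disjoint_left]
      intro z hz hz'
      rw [Finset.mem_sdiff] at hz'
      rcases Finset.mem_union.1 hz with hz | hz
      · have e1 := (mem_odP.1 hz).2
        have e2 := hAe z hz'.1
        rw [e1] at e2
        exact absurd e2 (by decide)
      · exact hz'.2 hz) (by
      rw [Finset.disjoint_left]
      intro z hz hz'
      rw [Finset.mem_sdiff] at hz'
      rcases Finset.mem_union.1 hz with hz | hz
      · exact hz'.2 hz
      · have e1 := (mem_odP.1 hz).2
        have e2 := hBe z hz'.1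
        rw [e1] at e2
        exact absurd e2 (by decide)) (by
      rw [Set.disjoint_left]
      intro z hz hz'
      rw [Set.mem_ofPred_eq] at hz'
      rcases hz with hz | hz
      · rw [hC1o z (Finset.mem_coe.1 hz)] at hz'
        exact absurd hz' (by decide)
      · rw [hC2o z (Finset.mem_coe.1 hz)] at hz'
        exact absurd hz' (by decide))
  have eA : odP h A ∪ X ∪ (evP h A \ X) = A := by
    rw [Finset.union_assoc, Finset.union_sdiff_of_subset hX, Finset.union_comm, ev_union_od]
  have eB : Y ∪ odP h B ∪ (evP h B \ Y) = B := by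
    rw [Finset.union_comm Y, Finset.union_assoc, Finset.union_sdiff_of_subset hY,
      Finset.union_comm, ev_union_od]
  have := W.tr
  rw [eA, eB] at this
  exact this

/-- The unbalanced case with odd minorities. -/
lemma tr_unbal {h : ℕ} (hh : 0 < h) (hS : Snev h) {A B : Finset (ZMod (2 * h))}
    (hc : A.card = B.card) (hp : 0 < (odP h A).card) (hq : 0 < (odP h B).card)
    (hpq : 2 * ((odP h A).card + (odP h B).card) ≤ A.card + 1) : Tr A B := by
  have hA := card_ev_od h A
  have hB := card_ev_od h B
  by_cases h1 : A.card - ((odP h A).card + (odP h B).card) ≤ 1 ∨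
      (evP h B).card < 2 * (A.card - ((odP h A).card + (odP h B).card))
  · exact tr_unbal_aux hh hS hc hp hq hpq h1
  · apply Tr.symm
    apply tr_unbal_aux hh hS hc.symm hq hp (by omega)
    push Not at h1
    right
    omega

/-- `minority` of a set: the smaller of the sizes of its two parity classes -/
def mnr (h : ℕ) (A : Finset (ZMod (2 * h))) : ℕ := min (evP h A).card (odP h A).card

lemma exists_sh_mnr (h : ℕ) (A : Finset (ZMod (2 * h))) :
    ∃ s : ZMod (2 * h), (odP h (sh A s)).card = mnr h A := by
  unfold mnr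
  rcases le_total (evP h A).card (odP h A).card with h1 | h1
  · refine ⟨1, ?_⟩
    rw [odP_sh_one, card_sh, min_eq_left h1]
  · refine ⟨0, ?_⟩
    rw [sh_zero, min_eq_right h1]

/-- The unbalanced case: both sets mixed, `2 (p + q) ≤ k + 1` for the minorities `p`, `q`. -/
theorem tr_unbalanced {h : ℕ} (hh : 0 < h) (hS : Snev h) {A B : Finset (ZMod (2 * h))}
    (hc : A.card = B.card) (hp : 0 < mnr h A) (hq : 0 < mnr h B)
    (hpq : 2 * (mnr h A + mnr h B) ≤ A.card + 1) : Tr A B := by
  obtain ⟨s, hs⟩ := exists_sh_mnr h A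
  obtain ⟨t, ht⟩ := exists_sh_mnr h B
  rw [← tr_sh_iff s t]
  apply tr_unbal hh hS
  · rw [card_sh, card_sh, hc]
  · rw [hs]
    exact hp
  · rw [ht]
    exact hq
  · rw [hs, ht, card_sh]
    exact hpq

end Pool.Agent.Helper7.SN
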