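import Pool.Agent.Helper7.SN.Par

/-!
# Snevily for pairs with one set in a single parity class (induction step)
-/

set_option autoImplicit false
set_option linter.unusedSectionVars false

namespace Pool.Agent.Helper7.SN

open Finset

/-- Repair of a bad first half. -/
lemma split_aux {h : ℕ} (q0 q1 : ℕ) (h0 : 2 ≤ q0) (h1 : 0 < q1)
    (A0 A1 : Finset (ZMod h)) (hd : Disjoint A0 A1) (hc0 : A0.card = q0) (hc1 : A1.card = q1)
    (hbad : Bad q0 A0) :
    ∃ C0 C1 : Finset (ZMod h), Disjoint C0 C1 ∧ C0 ∪ C1 = A0 ∪ A1 ∧ C0.card = q0 ∧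
      C1.card = q1 ∧ ¬ Bad q0 C0 ∧ ¬ (2 ≤ q1 ∧ Bad q1 C1) := by
  classical
  obtain ⟨y, hy⟩ : A1.Nonempty := Finset.card_pos.1 (by omega)
  have hy0 : y ∉ A0 := fun hyy => (Finset.disjoint_left.1 hd hyy) hy
  -- the swap
  have hsw : ∀ x ∈ A0, Disjoint (insert y (A0.erase x)) (insert x (A1.erase y)) ∧
      insert y (A0.erase x) ∪ insert x (A1.erase y) = A0 ∪ A1 ∧
      (insert y (A0.erase x)).card = q0 ∧ (insert x (A1.erase y)).card = q1 ∧
      ¬ Bad q0 (insert y (A0.erase x)) := by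
    intro x hx
    have hxy : x ≠ y := fun e => hy0 (e ▸ hx)
    have hx1 : x ∉ A1 := fun hxx => (Finset.disjoint_left.1 hd hx) hxx
    refine ⟨?_, ?_, ?_, ?_, ?_⟩
    · rw [Finset.disjoint_left]
      intro z hz hz'
      rw [Finset.mem_insert, Finset.mem_erase] at hz hz'
      rcases hz with rfl | ⟨hz1, hz2⟩
      · rcases hz' with rfl | ⟨hz3, _⟩
        · exact hxy rfl
        · exact hz3 rfl
      · rcases hz' with rfl | ⟨_, hz4⟩
        · exact hz1 rfl
        · exact (Finset.disjoint_left.1 hd hz2) hz4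
    · ext z
      simp only [Finset.mem_union, Finset.mem_insert, Finset.mem_erase]
      constructor
      · rintro ((rfl | ⟨_, hz⟩) | (rfl | ⟨_, hz⟩))
        · exact Or.inr hy
        · exact Or.inl hz
        · exact Or.inl hx
        · exact Or.inr hz
      · rintro (hz | hz)
        · by_cases hzx : z = x
          · exact Or.inr (Or.inl hzx)
          · exact Or.inl (Or.inr ⟨hzx, hz⟩)
        · by_cases hzy : z = y
          · exact Or.inl (Or.inl hzy)
          · exact Or.inr (Or.inr ⟨hzy, hz⟩)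
    · rw [Finset.card_insert_of_notMem (fun hz => hy0 (Finset.mem_of_mem_erase hz)),
        Finset.card_erase_of_mem hx]
      omega
    · rw [Finset.card_insert_of_notMem (fun hz => hx1 (Finset.mem_of_mem_erase hz)),
        Finset.card_erase_of_mem hy]
      omega
    · intro hb
      obtain ⟨z, hz⟩ : (A0.erase x).Nonempty := by
        rw [← Finset.card_pos, Finset.card_erase_of_mem hx]
        omega
      have := hbad.eq_of_mem hb (Finset.mem_of_mem_erase hz) (Finset.mem_insert_of_mem hz)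
      exact hy0 (this ▸ Finset.mem_insert_self y _)
  obtain ⟨x1, hx1, x2, hx2, hne⟩ : ∃ x1 ∈ A0, ∃ x2 ∈ A0, x1 ≠ x2 := by
    have : 1 < A0.card := by omega
    obtain ⟨x1, hx1, x2, hx2, hne⟩ := Finset.one_lt_card.1 this
    exact ⟨x1, hx1, x2, hx2, hne⟩
  by_cases hq : 2 ≤ q1 ∧ Bad q1 (insert x1 (A1.erase y))
  · obtain ⟨hq1, hb1⟩ := hq
    obtain ⟨s1, s2, s3, s4, s5⟩ := hsw x2 hx2
    refine ⟨_, _, s1, s2, s3, s4, s5, ?_⟩
    rintro ⟨_, hb2⟩
    obtain ⟨z, hz⟩ : (A1.erase y).Nonempty := by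
      rw [← Finset.card_pos, Finset.card_erase_of_mem hy]
      omega
    have := hb1.eq_of_mem hb2 (Finset.mem_insert_of_mem hz) (Finset.mem_insert_of_mem hz)
    have hx1' : x1 ∈ insert x2 (A1.erase y) := this ▸ Finset.mem_insert_self x1 _
    rw [Finset.mem_insert] at hx1'
    rcases hx1' with e | e
    · exact hne e
    · exact (Finset.disjoint_left.1 hd hx1) (Finset.mem_of_mem_erase e)
  · obtain ⟨s1, s2, s3, s4, s5⟩ := hsw x1 hx1
    exact ⟨_, _, s1, s2, s3, s4, s5, hq⟩

/-- Every set of size `q0 + q1` splits into two sets of these sizes, none of which is bad. -/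
lemma split_good {h : ℕ} (q0 q1 : ℕ) (h0 : 0 < q0) (h1 : 0 < q1) (A : Finset (ZMod h))
    (hA : A.card = q0 + q1) :
    ∃ C0 C1 : Finset (ZMod h), Disjoint C0 C1 ∧ C0 ∪ C1 = A ∧ C0.card = q0 ∧ C1.card = q1 ∧
      ¬ (Even q0 ∧ Bad q0 C0) ∧ ¬ (Even q1 ∧ Bad q1 C1) := by
  classical
  obtain ⟨A0, hA0, hc0⟩ := Finset.exists_subset_card_eq (show q0 ≤ A.card by omega)
  have hd : Disjoint A0 (A \ A0) := Finset.disjoint_sdiff
  have hu : A0 ∪ (A \ A0) = A := Finset.union_sdiff_of_subset hA0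
  have hc1 : (A \ A0).card = q1 := by
    rw [Finset.card_sdiff_of_subset hA0]
    omega
  have two : ∀ q : ℕ, 0 < q → Even q → 2 ≤ q := by
    intro q hq he
    obtain ⟨r, hr⟩ := he
    omega
  by_cases hb0 : Even q0 ∧ Bad q0 A0
  · obtain ⟨C0, C1, s1, s2, s3, s4, s5, s6⟩ :=
      split_aux q0 q1 (two q0 h0 hb0.1) h1 A0 (A \ A0) hd hc0 hc1 hb0.2
    exact ⟨C0, C1, s1, by rw [s2, hu], s3, s4, fun hh => s5 hh.2,
      fun hh => s6 ⟨two q1 h1 hh.1, hh.2⟩⟩
  · by_cases hb1 : Even q1 ∧ Bad q1 (A \ A0)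
    · obtain ⟨C0, C1, s1, s2, s3, s4, s5, s6⟩ :=
        split_aux q1 q0 (two q1 h1 hb1.1) h0 (A \ A0) A0 hd.symm hc1 hc0 hb1.2
      exact ⟨C1, C0, s1.symm, by rw [Finset.union_comm, s2, Finset.union_comm, hu], s4, s3,
        fun hh => s6 ⟨two q0 h0 hh.1, hh.2⟩, fun hh => s5 hh.2⟩
    · exact ⟨A0, A \ A0, hd, hu, hc0, hc1, hb0, hb1⟩

/-- even part -/
def evP (h : ℕ) (A : Finset (ZMod (2 * h))) : Finset (ZMod (2 * h)) :=
  A.filter (fun x => par h x = 0)

/-- odd part -/
def odP (h : ℕ) (A : Finset (ZMod (2 * h))) : Finset (ZMod (2 * h)) :=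
  A.filter (fun x => par h x = 1)

lemma mem_evP {h : ℕ} {A : Finset (ZMod (2 * h))} {x : ZMod (2 * h)} :
    x ∈ evP h A ↔ x ∈ A ∧ par h x = 0 := by
  unfold evP
  rw [Finset.mem_filter]

lemma mem_odP {h : ℕ} {A : Finset (ZMod (2 * h))} {x : ZMod (2 * h)} :
    x ∈ odP h A ↔ x ∈ A ∧ par h x = 1 := by
  unfold odP
  rw [Finset.mem_filter]

lemma evP_disj (h : ℕ) (A B : Finset (ZMod (2 * h))) : Disjoint (evP h A) (odP h B) := by
  rw [Finset.disjoint_left]
  intro x hx hx'
  have e1 := (mem_evP.1 hx).2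
  have e2 := (mem_odP.1 hx').2
  rw [e1] at e2
  exact absurd e2 (by decide)

lemma ev_union_od (h : ℕ) (A : Finset (ZMod (2 * h))) : evP h A ∪ odP h A = A := by
  ext x
  rw [Finset.mem_union, mem_evP, mem_odP]
  constructor
  · rintro (hx | hx)
    · exact hx.1
    · exact hx.1
  · intro hx
    rcases zmod2_cases (par h x) with e | e
    · exact Or.inl ⟨hx, e⟩
    · exact Or.inr ⟨hx, e⟩

lemma card_ev_od (h : ℕ) (A : Finset (ZMod (2 * h))) :
    (evP h A).card + (odP h A).card = A.card := by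
  rw [← Finset.card_union_of_disjoint (evP_disj h A A), ev_union_od]

lemma par_sub_one_of {h : ℕ} {x : ZMod (2 * h)} (hx : par h x = 1) : par h (x - 1) = 0 := by
  rw [map_sub, hx, map_one, sub_self]

/-- the odd part shifted to the even numbers -/
lemma par_sh_odP {h : ℕ} (A : Finset (ZMod (2 * h))) :
    ∀ x ∈ sh (odP h A) (-1), par h x = 0 := by
  intro x hx
  rw [mem_sh, mem_odP] at hx
  have := hx.2
  rw [sub_neg_eq_add, map_add, map_one] at this
  rcases zmod2_cases (par h x) with e | e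
  · exact e
  · rw [e] at this
    exact absurd this (by decide)

lemma evP_eq_of {h : ℕ} {A : Finset (ZMod (2 * h))} (hA : ∀ x ∈ A, par h x = 0) :
    evP h A = A := by
  ext x
  rw [mem_evP]
  exact ⟨fun hx => hx.1, fun hx => ⟨hx, hA x hx⟩⟩

lemma evP_sh_one {h : ℕ} (A : Finset (ZMod (2 * h))) : evP h (sh A 1) = sh (odP h A) 1 := by
  ext x
  rw [mem_evP, mem_sh, mem_sh, mem_odP, map_sub, map_one]
  constructor
  · rintro ⟨h1, h2⟩
    refine ⟨h1, ?_⟩
    rw [h2]
    decide
  · rintro ⟨h1, h2⟩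
    refine ⟨h1, ?_⟩
    rcases zmod2_cases (par h x) with e | e
    · exact e
    · rw [e] at h2
      exact absurd h2 (by decide)

lemma odP_sh_one {h : ℕ} (A : Finset (ZMod (2 * h))) : odP h (sh A 1) = sh (evP h A) 1 := by
  ext x
  rw [mem_odP, mem_sh, mem_sh, mem_evP, map_sub, map_one]
  constructor
  · rintro ⟨h1, h2⟩
    refine ⟨h1, ?_⟩
    rw [h2]
    decide
  · rintro ⟨h1, h2⟩
    refine ⟨h1, ?_⟩
    rcases zmod2_cases (par h x) with e | e
    · rw [e] at h2
      exact absurd h2 (by decide)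
    · exact e

/-- Both sets even: transfer to `Z/h`. -/
lemma good_even_even {h : ℕ} (hS : Snev h) {A B : Finset (ZMod (2 * h))}
    (hc : A.card = B.card) (hA : ∀ x ∈ A, par h x = 0) (hB : ∀ x ∈ B, par h x = 0) :
    Good A B := by
  have := (hS (halfE h A) (halfE h B) (by rw [card_halfE hA, card_halfE hB, hc])).up
  rw [up_halfE hA, up_halfE hB] at this
  exact this

/-- `A` even, `B` mixed: there is a transversal. -/
lemma tr_even_mixed {h : ℕ} (hh : 0 < h) (hS : Snev h) {A B : Finset (ZMod (2 * h))}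
    (hc : A.card = B.card) (hA : ∀ x ∈ A, par h x = 0) (hB0 : (evP h B).Nonempty)
    (hB1 : (odP h B).Nonempty) : Tr A B := by
  classical
  have hBe : ∀ x ∈ evP h B, par h x = 0 := fun x hx => (mem_evP.1 hx).2
  have hBo := par_sh_odP B
  obtain ⟨C0, C1, s1, s2, s3, s4, s5, s6⟩ := split_good (evP h B).card (odP h B).card
    (Finset.card_pos.2 hB0) (Finset.card_pos.2 hB1) (halfE h A) (by
      rw [card_halfE hA, hc, card_ev_od])
  have T0 : Tr C0 (halfE h (evP h B)) := by
    by_contra hno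
    have hcc : C0.card = (halfE h (evP h B)).card := by rw [s3, card_halfE hBe]
    obtain ⟨e1, e2, _⟩ := Snev.bad hh hS hcc hno
    rw [s3] at e1 e2
    exact s5 ⟨e1, e2⟩
  have T1 : Tr C1 (halfE h (sh (odP h B) (-1))) := by
    by_contra hno
    have hcc : C1.card = (halfE h (sh (odP h B) (-1))).card := by
      rw [s4, card_halfE hBo, card_sh]
    obtain ⟨e1, e2, _⟩ := Snev.bad hh hS hcc hno
    rw [s4] at e1 e2
    exact s6 ⟨e1, e2⟩
  have U0 := T0.up
  rw [up_halfE hBe] at U0
  have U1 : TrS (up h C1) (odP h B) {x | par h x = 1} := by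
    have V := T1.up.tr
    rw [up_halfE hBo] at V
    have V2 := V.sh 0 1
    rw [sh_zero, sh_sh, neg_add_cancel, sh_zero] at V2
    refine V2.trS ?_
    intro a ha b hb
    rw [Set.mem_ofPred_eq, map_add, par_of_mem_up ha, (mem_odP.1 hb).2, zero_add]
  have hdis : Disjoint {x : ZMod (2 * h) | par h x = 0} {x | par h x = 1} := by
    rw [Set.disjoint_left]
    intro x hx hx'
    rw [Set.mem_ofPred_eq] at hx hx'
    rw [hx] at hx'
    exact absurd hx' (by decide)
  have hdA : Disjoint (up h C0) (up h C1) := by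
    rw [Finset.disjoint_left]
    intro x hx hx'
    obtain ⟨y, hy, rfl⟩ := mem_up.1 hx
    exact (Finset.disjoint_left.1 s1 hy) (dbl_mem_up.1 hx')
  have := (U0.union U1 hdA (evP_disj h B B) hdis).tr
  rw [ev_union_od] at this
  have hAu : up h C0 ∪ up h C1 = A := by
    rw [← up_halfE hA, ← s2]
    ext x
    rw [Finset.mem_union, mem_up, mem_up, mem_up]
    constructor
    · rintro (⟨y, hy, e⟩ | ⟨y, hy, e⟩)
      · exact ⟨y, Finset.mem_union_left _ hy, e⟩
      · exact ⟨y, Finset.mem_union_right _ hy, e⟩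
    · rintro ⟨y, hy, e⟩
      rcases Finset.mem_union.1 hy with hy | hy
      · exact Or.inl ⟨y, hy, e⟩
      · exact Or.inr ⟨y, hy, e⟩
  rw [hAu] at this
  exact this

/-- `A` even: Snevily holds. -/
lemma good_even {h : ℕ} (hh : 0 < h) (hS : Snev h) {A B : Finset (ZMod (2 * h))}
    (hc : A.card = B.card) (hA : ∀ x ∈ A, par h x = 0) : Good A B := by
  rcases (odP h B).eq_empty_or_nonempty with h1 | h1
  · apply good_even_even hS hc hA
    intro x hx
    rcases zmod2_cases (par h x) with e | e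
    · exact e
    · have : x ∈ odP h B := mem_odP.2 ⟨hx, e⟩
      rw [h1] at this
      simp at this
  · rcases (evP h B).eq_empty_or_nonempty with h0 | h0
    · rw [← good_sh_iff (A := A) (B := B) 0 (-1), sh_zero]
      apply good_even_even hS (by rw [card_sh, hc]) hA
      intro x hx
      rw [mem_sh] at hx
      rcases zmod2_cases (par h x) with e | e
      · exact e
      · have : x - -1 ∈ evP h B := mem_evP.2 ⟨hx, by
          rw [sub_neg_eq_add, map_add, e, map_one]
          decide⟩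
        rw [h0] at this
        simp at this
    · exact Or.inl (tr_even_mixed hh hS hc hA h0 h1)

/-- One set inside one parity class: Snevily holds. -/
theorem good_oneClass {h : ℕ} (hh : 0 < h) (hS : Snev h) {A B : Finset (ZMod (2 * h))}
    (hc : A.card = B.card) (hA : evP h A = ∅ ∨ odP h A = ∅) : Good A B := by
  rcases hA with h0 | h1
  · rw [← good_sh_iff (A := A) (B := B) (-1) 0, sh_zero]
    apply good_even hh hS (by rw [card_sh, hc])
    intro x hx
    rw [mem_sh] at hx
    rcases zmod2_cases (par h x) with e | e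
    · exact e
    · have : x - -1 ∈ evP h A := mem_evP.2 ⟨hx, by
        rw [sub_neg_eq_add, map_add, e, map_one]
        decide⟩
      rw [h0] at this
      simp at this
  · apply good_even hh hS hc
    intro x hx
    rcases zmod2_cases (par h x) with e | e
    · exact e
    · have : x ∈ odP h A := mem_odP.2 ⟨hx, e⟩
      rw [h1] at this
      simp at this

end Pool.Agent.Helper7.SN
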