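import Pool.Agent.Helper7.SN.Base

/-!
# The even subgroup of `ZMod (2 * h)` and bad (coset) sets of `ZMod h`
-/

set_option autoImplicit false
set_option linter.unusedSectionVars false

namespace Pool.Agent.Helper7.SN

open Finset

/-- Snevily's conjecture for `Z/n` -/
def Snev (n : ℕ) : Prop :=
  ∀ A B : Finset (ZMod n), A.card = B.card → Good A B

/-- parity on `ZMod (2 * h)` -/
def par (h : ℕ) : ZMod (2 * h) →+* ZMod 2 := ZMod.castHom (dvd_mul_right 2 h) (ZMod 2)

/-- the embedding `x ↦ 2 x` -/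
def dbl (h : ℕ) : ZMod h →+ ZMod (2 * h) :=
  ZMod.lift h ⟨(Int.castAddHom (ZMod (2 * h))).comp (AddMonoidHom.mulLeft (2 : ℤ)), by
    simp only [AddMonoidHom.coe_comp, Function.comp_apply, AddMonoidHom.coe_mulLeft,
      Int.coe_castAddHom]
    have : ((2 * h : ℕ) : ZMod (2 * h)) = 0 := ZMod.natCast_self _
    push_cast at this ⊢
    exact this⟩

lemma dbl_intCast (h : ℕ) (m : ℤ) : dbl h (m : ZMod h) = ((2 * m : ℤ) : ZMod (2 * h)) := by
  unfold dbl
  rw [ZMod.lift_coe]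
  simp

lemma dbl_injective (h : ℕ) : Function.Injective (dbl h) := by
  rw [injective_iff_map_eq_zero]
  intro x hx
  obtain ⟨m, rfl⟩ := ZMod.intCast_surjective x
  rw [dbl_intCast, ZMod.intCast_zmod_eq_zero_iff_dvd] at hx
  rw [ZMod.intCast_zmod_eq_zero_iff_dvd]
  push_cast at hx
  exact (mul_dvd_mul_iff_left (by norm_num : (2 : ℤ) ≠ 0)).1 hx

lemma par_intCast (h : ℕ) (m : ℤ) : par h (m : ZMod (2 * h)) = (m : ZMod 2) := by
  simp [par]

lemma par_dbl (h : ℕ) (x : ZMod h) : par h (dbl h x) = 0 := by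
  obtain ⟨m, rfl⟩ := ZMod.intCast_surjective x
  rw [dbl_intCast, par_intCast, ZMod.intCast_zmod_eq_zero_iff_dvd]
  exact ⟨m, by push_cast; ring⟩

lemma exists_dbl (h : ℕ) (x : ZMod (2 * h)) (hx : par h x = 0) : ∃ y, dbl h y = x := by
  obtain ⟨m, rfl⟩ := ZMod.intCast_surjective x
  rw [par_intCast, ZMod.intCast_zmod_eq_zero_iff_dvd] at hx
  obtain ⟨m', rfl⟩ := hx
  refine ⟨(m' : ZMod h), ?_⟩
  rw [dbl_intCast]
  push_cast
  rfl

lemma zmod2_cases (z : ZMod 2) : z = 0 ∨ z = 1 := by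
  revert z
  decide

/-- the even part of a set, halved -/
noncomputable def halfE (h : ℕ) (A : Finset (ZMod (2 * h))) : Finset (ZMod h) :=
  A.preimage (dbl h) ((dbl_injective h).injOn)

lemma mem_halfE {h : ℕ} {A : Finset (ZMod (2 * h))} {x : ZMod h} :
    x ∈ halfE h A ↔ dbl h x ∈ A := by
  unfold halfE
  rw [Finset.mem_preimage]

/-- doubling of a set -/
def up (h : ℕ) (A : Finset (ZMod h)) : Finset (ZMod (2 * h)) :=
  A.map ⟨dbl h, dbl_injective h⟩

lemma mem_up {h : ℕ} {A : Finset (ZMod h)} {x : ZMod (2 * h)} :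
    x ∈ up h A ↔ ∃ y ∈ A, dbl h y = x := by
  unfold up
  rw [Finset.mem_map]
  rfl

lemma dbl_mem_up {h : ℕ} {A : Finset (ZMod h)} {x : ZMod h} :
    dbl h x ∈ up h A ↔ x ∈ A := by
  rw [mem_up]
  constructor
  · rintro ⟨y, hy, e⟩
    rw [← dbl_injective h e]
    exact hy
  · intro hx
    exact ⟨x, hx, rfl⟩

lemma card_up (h : ℕ) (A : Finset (ZMod h)) : (up h A).card = A.card := by
  unfold up
  rw [Finset.card_map]

lemma par_of_mem_up {h : ℕ} {A : Finset (ZMod h)} {x : ZMod (2 * h)} (hx : x ∈ up h A) :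
    par h x = 0 := by
  obtain ⟨y, _, rfl⟩ := mem_up.1 hx
  exact par_dbl h y

lemma up_halfE {h : ℕ} {A : Finset (ZMod (2 * h))} (hA : ∀ x ∈ A, par h x = 0) :
    up h (halfE h A) = A := by
  ext x
  rw [mem_up]
  constructor
  · rintro ⟨y, hy, rfl⟩
    exact mem_halfE.1 hy
  · intro hx
    obtain ⟨y, rfl⟩ := exists_dbl h x (hA x hx)
    exact ⟨y, mem_halfE.2 hx, rfl⟩

lemma card_halfE {h : ℕ} {A : Finset (ZMod (2 * h))} (hA : ∀ x ∈ A, par h x = 0) :
    (halfE h A).card = A.card := by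
  rw [← card_up, up_halfE hA]

/-- transversals can be doubled -/
lemma Tr.up {h : ℕ} {A B : Finset (ZMod h)} (hT : Tr A B) :
    TrS (up h A) (up h B) {x | par h x = 0} := by
  obtain ⟨f, h1, h2⟩ := hT
  have hinv : ∀ x, dbl h (Function.invFun (dbl h) (dbl h x)) = dbl h x := fun x => by
    rw [Function.leftInverse_invFun (dbl_injective h) x]
  have hli : ∀ x, Function.invFun (dbl h) (dbl h x) = x :=
    Function.leftInverse_invFun (dbl_injective h)
  refine ⟨fun x => dbl h (f (Function.invFun (dbl h) x)), ⟨?_, ?_, ?_⟩, ?_, ?_⟩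
  · intro x hx
    obtain ⟨y, hy, rfl⟩ := mem_up.1 (Finset.mem_coe.1 hx)
    simp only [hli]
    exact Finset.mem_coe.2 (dbl_mem_up.2 (h1.mapsTo hy))
  · intro x hx x' hx' hxx
    obtain ⟨y, hy, rfl⟩ := mem_up.1 (Finset.mem_coe.1 hx)
    obtain ⟨y', hy', rfl⟩ := mem_up.1 (Finset.mem_coe.1 hx')
    simp only [hli] at hxx
    rw [h1.injOn hy hy' (dbl_injective h hxx)]
  · intro b hb
    obtain ⟨c, hc, rfl⟩ := mem_up.1 (Finset.mem_coe.1 hb)
    obtain ⟨a, ha, rfl⟩ := h1.surjOn hc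
    refine ⟨dbl h a, Finset.mem_coe.2 (dbl_mem_up.2 ha), ?_⟩
    simp only [hli]
  · intro x hx x' hx' hxx
    obtain ⟨y, hy, rfl⟩ := mem_up.1 (Finset.mem_coe.1 hx)
    obtain ⟨y', hy', rfl⟩ := mem_up.1 (Finset.mem_coe.1 hx')
    simp only [hli, ← map_add] at hxx
    rw [h2 hy hy' (dbl_injective h hxx)]
  · intro x hx
    obtain ⟨y, hy, rfl⟩ := mem_up.1 hx
    simp only [hli, Set.mem_ofPred_eq, map_add, par_dbl, add_zero]

lemma CosPair.up {h : ℕ} {A B : Finset (ZMod h)} (hc : CosPair A B) :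
    CosPair (up h A) (up h B) := by
  obtain ⟨H, hH, a, b, ha, hb⟩ := hc
  have hcard : Nat.card (H.map (dbl h)) = Nat.card H :=
    (Nat.card_congr (H.equivMapOfInjective (dbl h) (dbl_injective h)).toEquiv).symm
  have key : ∀ (C : Finset (ZMod h)) (c : ZMod h), (∀ x, x ∈ C ↔ x - c ∈ H) →
      ∀ x : ZMod (2 * h), x ∈ SN.up h C ↔ x - dbl h c ∈ H.map (dbl h) := by
    intro C c hC x
    rw [mem_up, AddSubgroup.mem_map]
    constructor
    · rintro ⟨y, hy, rfl⟩
      exact ⟨y - c, (hC y).1 hy, by rw [map_sub]⟩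
    · rintro ⟨z, hz, hzx⟩
      refine ⟨z + c, (hC _).2 (by rw [add_sub_cancel_right]; exact hz), ?_⟩
      rw [map_add, hzx, sub_add_cancel]
  exact ⟨H.map (dbl h), by rw [hcard]; exact hH, dbl h a, dbl h b, key A a ha, key B b hb⟩

lemma Good.up {h : ℕ} {A B : Finset (ZMod h)} (hg : Good A B) : Good (up h A) (up h B) := by
  rcases hg with hg | hg
  · exact Or.inl hg.up.tr
  · exact Or.inr hg.up

/-- a bad set of size `l`: a coset of the subgroup `{x | l x = 0}` -/
def Bad {h : ℕ} (l : ℕ) (A : Finset (ZMod h)) : Prop :=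
  ∃ a : ZMod h, ∀ x, x ∈ A ↔ l • (x - a) = 0

lemma Bad.eq_of_mem {h l : ℕ} {A B : Finset (ZMod h)} (hA : Bad l A) (hB : Bad l B)
    {x : ZMod h} (h1 : x ∈ A) (h2 : x ∈ B) : A = B := by
  obtain ⟨a, ha⟩ := hA
  obtain ⟨b, hb⟩ := hB
  have e1 := (ha x).1 h1
  have e2 := (hb x).1 h2
  have e3 : l • a = l • b := by
    rw [smul_sub, sub_eq_zero] at e1 e2
    rw [← e1, e2]
  ext y
  rw [ha, hb, smul_sub, smul_sub, e3]

lemma coset_bad {h : ℕ} (hh : 0 < h) {A : Finset (ZMod h)} {H : AddSubgroup (ZMod h)}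
    {a : ZMod h} (ha : ∀ x, x ∈ A ↔ x - a ∈ H) :
    Nat.card H = A.card ∧ Bad A.card A := by
  classical
  have : NeZero h := ⟨hh.ne'⟩
  have hcard : Nat.card H = A.card := by
    have e : (A : Set (ZMod h)) = (fun x => x + a) '' (H : Set (ZMod h)) := by
      ext x
      rw [Finset.mem_coe, ha]
      constructor
      · intro hx
        exact ⟨x - a, hx, by simp⟩
      · rintro ⟨y, hy, rfl⟩
        simpa using hy
    have e2 : (A : Set (ZMod h)).ncard = (H : Set (ZMod h)).ncard := by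
      rw [e]
      exact Set.ncard_image_of_injective _ (add_left_injective a)
    rw [Set.ncard_coe_finset] at e2
    rw [e2]
    rfl
  refine ⟨hcard, a, ?_⟩
  -- `H = {x | l x = 0}`
  have hlpos : 0 < A.card := by
    rw [← hcard]
    exact Nat.card_pos
  have hsub : ∀ x ∈ H, A.card • x = 0 := by
    intro x hx
    have : Nat.card H • (⟨x, hx⟩ : H) = 0 := card_nsmul_eq_zero'
    rw [hcard] at this
    have := congrArg (fun z : H => (z : ZMod h)) this
    simpa using this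
  have hle : (Finset.univ.filter (fun x : ZMod h => A.card • x = 0)).card ≤ A.card :=
    IsAddCyclic.card_nsmul_eq_zero_le hlpos
  have hsubF : (Finset.univ.filter (fun x : ZMod h => x ∈ H)) ⊆
      (Finset.univ.filter (fun x : ZMod h => A.card • x = 0)) := by
    intro x hx
    rw [Finset.mem_filter] at hx ⊢
    exact ⟨Finset.mem_univ _, hsub x hx.2⟩
  have hcF : (Finset.univ.filter (fun x : ZMod h => x ∈ H)).card = A.card := by
    rw [← hcard]
    rw [Nat.card_eq_fintype_card]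
    rw [Fintype.card_subtype]
  have heq := Finset.eq_of_subset_of_card_le hsubF (by rw [hcF]; exact hle)
  intro x
  rw [ha]
  have hiff : x - a ∈ (Finset.univ.filter (fun x : ZMod h => x ∈ H)) ↔
      x - a ∈ (Finset.univ.filter (fun x : ZMod h => A.card • x = 0)) := by rw [heq]
  simpa using hiff

/-- The way Snevily's conjecture for `Z/h` is used. -/
lemma Snev.bad {h : ℕ} (hh : 0 < h) (hS : Snev h) {A B : Finset (ZMod h)}
    (hc : A.card = B.card) (hno : ¬ Tr A B) :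
    Even A.card ∧ Bad A.card A ∧ Bad B.card B := by
  rcases hS A B hc with hg | ⟨H, hH, a, b, ha, hb⟩
  · exact absurd hg hno
  · obtain ⟨h1, h2⟩ := coset_bad hh ha
    obtain ⟨h3, h4⟩ := coset_bad hh hb
    rw [h1] at hH
    exact ⟨hH, h2, h4⟩

end Pool.Agent.Helper7.SN
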